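import Mathlib

/-!
Local facts about pairs of colours (states) used for two disjoint correspondence colourings.
-/

namespace Pool.Agent.Lib.MP_d98608_co

open Finset

/-- The ordered pairs of distinct colours avoiding `F₁` in the first and `F₂` in the second place. -/
def avail (F₁ F₂ : Finset (Fin 5)) : Finset (Fin 5 × Fin 5) :=
  Finset.univ.filter fun s => s.1 ≠ s.2 ∧ s.1 ∉ F₁ ∧ s.2 ∉ F₂

theorem mem_avail {F₁ F₂ : Finset (Fin 5)} {s : Fin 5 × Fin 5} :
    s ∈ avail F₁ F₂ ↔ s.1 ≠ s.2 ∧ s.1 ∉ F₁ ∧ s.2 ∉ F₂ := by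
  simp [avail]

theorem six_le_card_avail : ∀ F₁ F₂ : Finset (Fin 5), F₁.card ≤ 2 → F₂.card ≤ 2 →
    6 ≤ (avail F₁ F₂).card := by
  decide +kernel

theorem two_le_card_avail : ∀ F₁ F₂ : Finset (Fin 5), F₁.card ≤ 3 → F₂.card ≤ 3 →
    2 ≤ (avail F₁ F₂).card := by
  decide +kernel

/-- The pairs of distinct colours whose removal leaves fewer than `m` states. -/
def bad (m : ℕ) (F₁ F₂ : Finset (Fin 5)) : Finset (Fin 5 × Fin 5) :=
  Finset.univ.filter fun s => s.1 ≠ s.2 ∧ (avail (insert s.1 F₁) (insert s.2 F₂)).card < m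

theorem card_bad_one : ∀ F₁ F₂ : Finset (Fin 5), F₁.card ≤ 3 → F₂.card ≤ 3 →
    (bad 1 F₁ F₂).card ≤ 1 := by
  decide +kernel

theorem card_bad_three : ∀ F₁ F₂ : Finset (Fin 5), F₁.card ≤ 2 → F₂.card ≤ 2 →
    (bad 3 F₁ F₂).card ≤ 1 := by
  decide +kernel

/-- A matching between two copies of a finite type extends to a permutation. -/
theorem exists_perm_of_matching {α : Type*} [Fintype α] (m : α → α → Prop)
    (h₁ : ∀ a b c, m a b → m a c → b = c) (h₂ : ∀ a b c, m a c → m b c → a = b) :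
    ∃ σ : Equiv.Perm α, ∀ a b, m a b → σ a = b := by
  classical
  let e : {a // ∃ b, m a b} ≃ {b // ∃ a, m a b} :=
    { toFun := fun a => ⟨a.2.choose, a.1, a.2.choose_spec⟩
      invFun := fun b => ⟨b.2.choose, b.1, b.2.choose_spec⟩
      left_inv := fun a => Subtype.ext (h₂ _ _ _ (Exists.choose_spec (⟨a.1, a.2.choose_spec⟩ : ∃ x, m x a.2.choose)) a.2.choose_spec)
      right_inv := fun b => Subtype.ext (h₁ _ _ _ (Exists.choose_spec (⟨b.1, b.2.choose_spec⟩ : ∃ x, m b.2.choose x)) b.2.choose_spec) }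
  refine ⟨e.extendSubtype, fun a b hab => ?_⟩
  rw [Equiv.extendSubtype_apply_of_mem e a ⟨b, hab⟩]
  exact h₁ a _ _ (Exists.choose_spec (⟨b, hab⟩ : ∃ b, m a b)) hab

end Pool.Agent.Lib.MP_d98608_co
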