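import Mathlib
import Pool.Agent.Lib.MP_d98608_co.H51Local

/-!
Extension of a pair of disjoint colourings along an ordered set of vertices of degree four and five.
-/

namespace Pool.Agent.Lib.MP_d98608_co

open Finset

variable {V : Type*} [DecidableEq V] (G : SimpleGraph V) [DecidableRel G.Adj]

/-- The number of neighbours of `v` in `W`. -/
def dg (W : Finset V) (v : V) : ℕ := (W.filter (G.Adj v)).card

/-- The colours at `w` blocked by the neighbours of `w` in `T`. -/
def blk (σ : V → V → Equiv.Perm (Fin 5)) (T : Finset V) (φ : V → Fin 5) (w : V) :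
    Finset (Fin 5) :=
  (T.filter (G.Adj w)).image fun v => σ v w (φ v)

/-- `φ` is a colouring of the vertices in `T`. -/
def Prop5 (M : V → V → Fin 5 → Fin 5 → Prop) (T : Finset V) (φ : V → Fin 5) : Prop :=
  ∀ u ∈ T, ∀ v ∈ T, G.Adj u v → ¬ M u v (φ u) (φ v)

variable {G}

omit [DecidableEq V] in
theorem card_blk_le (σ : V → V → Equiv.Perm (Fin 5)) (T : Finset V) (φ : V → Fin 5) (w : V) :
    (blk G σ T φ w).card ≤ dg G T w :=
  Finset.card_image_le

theorem dg_insert_of_adj {T : Finset V} {u w : V} (hu : u ∉ T) (h : G.Adj w u) :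
    dg G (insert u T) w = dg G T w + 1 := by
  unfold dg
  rw [Finset.filter_insert, if_pos h, Finset.card_insert_of_notMem (by simp [hu])]

theorem dg_insert_of_not_adj {T : Finset V} {u w : V} (h : ¬ G.Adj w u) :
    dg G (insert u T) w = dg G T w := by
  unfold dg
  rw [Finset.filter_insert, if_neg h]

theorem dg_union {A B : Finset V} (h : Disjoint A B) (w : V) :
    dg G (A ∪ B) w = dg G A w + dg G B w := by
  unfold dg
  rw [Finset.filter_union, Finset.card_union_of_disjoint (Finset.disjoint_filter_filter h)]

theorem blk_update_of_notMem (σ : V → V → Equiv.Perm (Fin 5)) {T : Finset V} {u : V}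
    (hu : u ∉ T) (φ : V → Fin 5) (a : Fin 5) (w : V) :
    blk G σ T (Function.update φ u a) w = blk G σ T φ w := by
  unfold blk
  refine Finset.image_congr fun v hv => ?_
  have : v ≠ u := fun h => hu (h ▸ (Finset.mem_filter.1 hv).1)
  simp [Function.update_of_ne this]

theorem blk_insert_of_adj (σ : V → V → Equiv.Perm (Fin 5)) {T : Finset V} {u w : V}
    (hu : u ∉ T) (h : G.Adj w u) (φ : V → Fin 5) (a : Fin 5) :
    blk G σ (insert u T) (Function.update φ u a) w = insert (σ u w a) (blk G σ T φ w) := by
  rw [← blk_update_of_notMem σ hu φ a w]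
  unfold blk
  rw [Finset.filter_insert, if_pos h, Finset.image_insert]
  simp

theorem blk_insert_of_not_adj (σ : V → V → Equiv.Perm (Fin 5)) {T : Finset V} {u w : V}
    (hu : u ∉ T) (h : ¬ G.Adj w u) (φ : V → Fin 5) (a : Fin 5) :
    blk G σ (insert u T) (Function.update φ u a) w = blk G σ T φ w := by
  rw [← blk_update_of_notMem σ hu φ a w]
  unfold blk
  rw [Finset.filter_insert, if_neg h]

theorem prop5_insert {M : V → V → Fin 5 → Fin 5 → Prop}
    (hsymm : ∀ u v a b, M u v a b → M v u b a) {σ : V → V → Equiv.Perm (Fin 5)}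
    (hσ : ∀ u v a b, M u v a b → σ u v a = b) {T : Finset V} {u : V} (hu : u ∉ T)
    {φ : V → Fin 5} (hφ : Prop5 G M T φ) {a : Fin 5} (ha : a ∉ blk G σ T φ u) :
    Prop5 G M (insert u T) (Function.update φ u a) := by
  have key : ∀ v ∈ T, G.Adj u v → ¬ M v u (φ v) a := by
    intro v hv hadj hM
    exact ha (Finset.mem_image.2 ⟨v, Finset.mem_filter.2 ⟨hv, hadj⟩, hσ _ _ _ _ hM⟩)
  intro x hx y hy hxy
  rcases Finset.mem_insert.1 hx with rfl | hx'
  · rcases Finset.mem_insert.1 hy with rfl | hy'
    · exact absurd hxy (G.loopless.irrefl _)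
    · have hyx : y ≠ x := fun h => hu (h ▸ hy')
      rw [Function.update_self, Function.update_of_ne hyx]
      exact fun hM => key y hy' hxy (hsymm _ _ _ _ hM)
  · have hxu : x ≠ u := fun h => hu (h ▸ hx')
    rcases Finset.mem_insert.1 hy with rfl | hy'
    · rw [Function.update_self, Function.update_of_ne hxu]
      exact key x hx' hxy.symm
    · have hyu : y ≠ u := fun h => hu (h ▸ hy')
      rw [Function.update_of_ne hxu, Function.update_of_ne hyu]
      exact hφ x hx' y hy' hxy

theorem update_ne {φ ψ : V → Fin 5} (h : ∀ v, φ v ≠ ψ v) (u : V) {a b : Fin 5} (hab : a ≠ b) :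
    ∀ v, Function.update φ u a v ≠ Function.update ψ u b v := by
  intro v
  by_cases hv : v = u
  · subst hv; simpa using hab
  · rw [Function.update_of_ne hv, Function.update_of_ne hv]; exact h v

/-- The invariant kept at an uncoloured vertex `w`. -/
def Inv (G : SimpleGraph V) [DecidableRel G.Adj] (σ : V → V → Equiv.Perm (Fin 5)) (r : V → ℕ)
    (T W : Finset V) (φ ψ : V → Fin 5) (w : V) : Prop :=
  (dg G T w + dg G W w = 4 ∧ 1 ≤ (avail (blk G σ T φ w) (blk G σ T ψ w)).card) ∨
  (dg G T w + dg G W w = 5 ∧ 2 ≤ (W.filter fun x => G.Adj w x ∧ r w < r x).card ∧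
    (dg G T w = 3 → 3 ≤ (avail (blk G σ T φ w) (blk G σ T ψ w)).card))

omit [DecidableEq V] in
theorem later_le_dg (r : V → ℕ) (W : Finset V) (w : V) :
    (W.filter fun x => G.Adj w x ∧ r w < r x).card ≤ dg G W w :=
  Finset.card_le_card fun x hx => by
    simp only [Finset.mem_filter] at hx ⊢
    exact ⟨hx.1, hx.2.1⟩

theorem extend {M : V → V → Fin 5 → Fin 5 → Prop}
    (hsymm : ∀ u v a b, M u v a b → M v u b a) {σ : V → V → Equiv.Perm (Fin 5)}
    (hσ : ∀ u v a b, M u v a b → σ u v a = b) (r : V → ℕ) (n : ℕ) :
    ∀ (T W : Finset V) (φ ψ : V → Fin 5), W.card = n → Disjoint T W → Prop5 G M T φ →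
      Prop5 G M T ψ → (∀ v, φ v ≠ ψ v) → (∀ w ∈ W, Inv G σ r T W φ ψ w) →
      ∃ φ' ψ' : V → Fin 5, Prop5 G M (T ∪ W) φ' ∧ Prop5 G M (T ∪ W) ψ' ∧ ∀ v, φ' v ≠ ψ' v := by
  induction n with
  | zero =>
    intro T W φ ψ hW _ hφ hψ hne _
    rw [Finset.card_eq_zero.1 hW, Finset.union_empty]
    exact ⟨φ, ψ, hφ, hψ, hne⟩
  | succ n ih =>
    intro T W φ ψ hW hdis hφ hψ hne hinv
    obtain ⟨u, huW, hmin⟩ := Finset.exists_min_image W r (Finset.card_pos.1 (by omega))
    have huT : u ∉ T := fun h => Finset.disjoint_left.1 hdis h huW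
    -- the states of `u` that are bad for a neighbour `w`
    let thr : V → ℕ := fun w => if dg G T w + dg G W w = 4 then 1 else 3
    let B : V → Finset (Fin 5 × Fin 5) := fun w =>
      if (dg G T w + dg G W w = 4 ∧ dg G T w ≤ 3) ∨ dg G T w ≤ 2 then
        (bad (thr w) (blk G σ T φ w) (blk G σ T ψ w)).image
          fun s => ((σ u w).symm s.1, (σ u w).symm s.2)
      else ∅
    have hB : ∀ w, (B w).card ≤ 1 := by
      intro w
      simp only [B]
      split_ifs with h
      · refine le_trans Finset.card_image_le ?_
        have c1 := card_blk_le (G := G) σ T φ w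
        have c2 := card_blk_le (G := G) σ T ψ w
        by_cases h4 : dg G T w + dg G W w = 4
        · simp only [thr, if_pos h4]
          exact card_bad_one _ _ (by omega) (by omega)
        · simp only [thr, if_neg h4]
          exact card_bad_three _ _ (by omega) (by omega)
      · simp
    have hF : ((W.filter (G.Adj u)).biUnion B).card ≤ dg G W u := by
      refine le_trans Finset.card_biUnion_le ?_
      refine le_trans (Finset.sum_le_card_nsmul _ _ 1 fun w _ => hB w) ?_
      simp [dg]
    have hN : dg G W u < (avail (blk G σ T φ u) (blk G σ T ψ u)).card := by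
      have c1 := card_blk_le (G := G) σ T φ u
      have c2 := card_blk_le (G := G) σ T ψ u
      have l := later_le_dg (G := G) r W u
      by_cases h2 : dg G T u ≤ 2
      · have := six_le_card_avail _ _ (c1.trans h2) (c2.trans h2)
        rcases hinv u huW with h | h <;> omega
      · by_cases h3 : dg G T u = 3
        · have := two_le_card_avail _ _ (c1.trans h3.le) (c2.trans h3.le)
          rcases hinv u huW with h | h
          · omega
          · have := h.2.2 h3; omega
        · rcases hinv u huW with h | h <;> omega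
    obtain ⟨s, hs, hsB⟩ := Finset.exists_mem_notMem_of_card_lt_card (lt_of_le_of_lt hF hN)
    obtain ⟨hab, ha, hb⟩ := mem_avail.1 hs
    have hunion : insert u T ∪ W.erase u = T ∪ W := by
      ext x
      simp only [Finset.mem_union, Finset.mem_insert, Finset.mem_erase]
      by_cases hx : x = u
      · subst hx; simp [huW]
      · simp [hx]
    rw [← hunion]
    refine ih (insert u T) (W.erase u) (Function.update φ u s.1) (Function.update ψ u s.2)
      (by rw [Finset.card_erase_of_mem huW]; omega) ?_ (prop5_insert hsymm hσ huT hφ ha)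
      (prop5_insert hsymm hσ huT hψ hb) (update_ne hne u hab) ?_
    · rw [Finset.disjoint_left]
      intro x hx hx'
      rcases Finset.mem_insert.1 hx with rfl | hx
      · simp at hx'
      · exact Finset.disjoint_left.1 hdis hx (Finset.mem_of_mem_erase hx')
    · intro w hw
      have hwW := Finset.mem_of_mem_erase hw
      have hlater : ((W.erase u).filter fun x => G.Adj w x ∧ r w < r x) =
          W.filter fun x => G.Adj w x ∧ r w < r x := by
        ext x
        simp only [Finset.mem_filter, Finset.mem_erase]
        constructor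
        · rintro ⟨⟨_, h⟩, h'⟩; exact ⟨h, h'⟩
        · rintro ⟨h, h'⟩
          refine ⟨⟨?_, h⟩, h'⟩
          rintro rfl
          have := hmin w hwW
          omega
      have hWins : W = insert u (W.erase u) := (Finset.insert_erase huW).symm
      unfold Inv
      rw [hlater]
      by_cases hadj : G.Adj w u
      · have e1 := dg_insert_of_adj (G := G) huT hadj
        have e2 : dg G W w = dg G (W.erase u) w + 1 := by
          conv_lhs => rw [hWins]
          exact dg_insert_of_adj (Finset.notMem_erase u W) hadj
        rw [blk_insert_of_adj σ huT hadj, blk_insert_of_adj σ huT hadj]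
        have hnb : s ∉ B w := fun h =>
          hsB (Finset.mem_biUnion.2 ⟨w, Finset.mem_filter.2 ⟨hwW, hadj.symm⟩, h⟩)
        have hgood : ((dg G T w + dg G W w = 4 ∧ dg G T w ≤ 3) ∨ dg G T w ≤ 2) →
            thr w ≤ (avail (insert (σ u w s.1) (blk G σ T φ w))
              (insert (σ u w s.2) (blk G σ T ψ w))).card := by
          intro hc
          by_contra hlt
          apply hnb
          simp only [B, if_pos hc]
          refine Finset.mem_image.2 ⟨(σ u w s.1, σ u w s.2), ?_, by simp⟩
          simp only [bad, Finset.mem_filter, Finset.mem_univ, true_and]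
          exact ⟨fun h => hab ((σ u w).injective h), by omega⟩
        rcases hinv w hwW with h | h
        · left
          refine ⟨by omega, ?_⟩
          have := hgood (Or.inl ⟨h.1, by omega⟩)
          simpa only [thr, if_pos h.1] using this
        · right
          refine ⟨by omega, h.2.1, fun h3 => ?_⟩
          have := hgood (Or.inr (by omega))
          have h4 : ¬ dg G T w + dg G W w = 4 := by omega
          simpa only [thr, if_neg h4] using this
      · have e1 := dg_insert_of_not_adj (G := G) (T := T) hadj
        have e2 : dg G W w = dg G (W.erase u) w := by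
          conv_lhs => rw [hWins]
          exact dg_insert_of_not_adj hadj
        rw [blk_insert_of_not_adj σ huT hadj, blk_insert_of_not_adj σ huT hadj, e1, ← e2]
        exact hinv w hwW

end Pool.Agent.Lib.MP_d98608_co
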