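import Mathlib
import Pool.Agent.Lib.MP_d98608_co.H51Extend

/-!
A vertex set of minimum degree at least four and average degree below `24/5` contains a reducible
ordered set of vertices of degree four and five.
-/

namespace Pool.Agent.Lib.MP_d98608_co

open Finset

variable {V : Type*} [DecidableEq V] (G : SimpleGraph V) [DecidableRel G.Adj]

/-- The number of neighbours of `w` in `W` of larger rank. -/
def later (r : V → ℕ) (W : Finset V) (w : V) : ℕ :=
  (W.filter fun x => G.Adj w x ∧ r w < r x).card

/-- A reducible ordered subset of `S`. -/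
def Red (S H : Finset V) (r : V → ℕ) : Prop :=
  H ⊆ S ∧ H.Nonempty ∧ ∀ v ∈ H, (dg G S v = 4 ∧ 1 ≤ dg G H v) ∨
    (dg G S v = 5 ∧ 3 ≤ dg G H v ∧ 2 ≤ later G r H v)

variable {G}

omit [DecidableEq V] in
theorem sum_dg_comm (A B : Finset V) : ∑ v ∈ A, dg G B v = ∑ w ∈ B, dg G A w := by
  unfold dg
  simp only [Finset.card_filter]
  rw [Finset.sum_comm]
  refine Finset.sum_congr rfl fun w _ => Finset.sum_congr rfl fun v _ => ?_
  simp only [G.adj_comm]

theorem sum_dg_erase {W : Finset V} {v : V} (hv : v ∈ W) :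
    ∑ x ∈ W, dg G W x = ∑ x ∈ W.erase v, dg G (W.erase v) x + 2 * dg G W v := by
  have hW : W = W.erase v ∪ {v} := by
    rw [Finset.union_comm, ← Finset.insert_eq, Finset.insert_erase hv]
  have hd : Disjoint (W.erase v) {v} := by simp
  have h1 : ∀ x, dg G W x = dg G (W.erase v) x + dg G {v} x := by
    intro x
    conv_lhs => rw [hW]
    exact dg_union hd x
  have h0 : dg G {v} v = 0 := by simp [dg]
  have h2 : ∑ x ∈ W.erase v, dg G {v} x = dg G (W.erase v) v := by
    rw [sum_dg_comm]; simp
  rw [← Finset.add_sum_erase W _ hv, Finset.sum_congr rfl fun x _ => h1 x,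
    Finset.sum_add_distrib, h2, h1 v, h0]
  ring

theorem prune {S : Finset V} (r : V → ℕ) (hno : ∀ H, ¬ Red G S H r) (n : ℕ) :
    ∀ W : Finset V, W.card = n → W ⊆ S →
      (∀ v ∈ W, dg G S v = 4 ∨ (dg G S v = 5 ∧ 2 ≤ later G r W v)) →
      ∑ v ∈ W, dg G W v + 24 * W.card ≤ ∑ v ∈ W, 6 * dg G S v := by
  induction n with
  | zero =>
    intro W hW _ _
    rw [Finset.card_eq_zero.1 hW]; simp
  | succ n ih =>
    intro W hW hWS hgood
    have hne : W.Nonempty := Finset.card_pos.1 (by omega)
    have hex : ∃ v ∈ W, (dg G S v = 4 ∧ dg G W v = 0) ∨ (dg G S v = 5 ∧ dg G W v ≤ 2) := by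
      by_contra hcon
      push Not at hcon
      refine hno W ⟨hWS, hne, fun v hv => ?_⟩
      have := hcon v hv
      rcases hgood v hv with h | h
      · left; exact ⟨h, by have := this.1 h; omega⟩
      · right; exact ⟨h.1, by have := this.2 h.1; omega, h.2⟩
    obtain ⟨v, hv, hcase⟩ := hex
    have hlater : ∀ w ∈ W.erase v, later G r (W.erase v) w = later G r W w := by
      intro w hw
      have hwW := Finset.mem_of_mem_erase hw
      unfold later
      congr 1
      ext x
      simp only [Finset.mem_filter, Finset.mem_erase]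
      constructor
      · rintro ⟨⟨_, h⟩, h'⟩; exact ⟨h, h'⟩
      · rintro ⟨h, hadj, hr⟩
        refine ⟨⟨?_, h⟩, hadj, hr⟩
        rintro rfl
        have hsub : insert w (W.filter fun y => G.Adj x y ∧ r x < r y) ⊆ W.filter (G.Adj x) := by
          intro y hy
          rcases Finset.mem_insert.1 hy with rfl | hy
          · exact Finset.mem_filter.2 ⟨hwW, hadj.symm⟩
          · simp only [Finset.mem_filter] at hy ⊢
            exact ⟨hy.1, hy.2.1⟩
        have hc := Finset.card_le_card hsub
        rw [Finset.card_insert_of_notMem (by simp only [Finset.mem_filter]; omega)] at hc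
        have hg := hgood x h
        unfold later at hg
        unfold dg at hcase hg
        omega
    have := ih (W.erase v) (by rw [Finset.card_erase_of_mem hv]; omega)
      ((Finset.erase_subset v W).trans hWS) (fun w hw => by
        rw [hlater w hw]; exact hgood w (Finset.mem_of_mem_erase hw))
    rw [sum_dg_erase hv, ← Finset.add_sum_erase W _ hv]
    rw [Finset.card_erase_of_mem hv] at this
    rw [hW] at this ⊢
    simp only [Nat.add_sub_cancel] at this
    omega

theorem exists_red {S : Finset V} (hmin : ∀ v ∈ S, 4 ≤ dg G S v)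
    (havg : 5 * ∑ v ∈ S, dg G S v < 24 * S.card) : ∃ H r, Red G S H r := by
  classical
  by_contra hno
  push Not at hno
  let P : Finset V → Prop := fun U => (∀ v ∈ S, dg G S v = 4 → v ∈ U) ∧
    ∃ r : V → ℕ, ∀ v ∈ U, dg G S v = 4 ∨ (dg G S v = 5 ∧ 2 ≤ later G r U v)
  have hne : (S.powerset.filter P).Nonempty := by
    refine ⟨S.filter fun v => dg G S v = 4, Finset.mem_filter.2 ⟨by simp, ?_, fun _ => 0, ?_⟩⟩
    · intro v hv h; exact Finset.mem_filter.2 ⟨hv, h⟩
    · intro v hv; exact Or.inl (Finset.mem_filter.1 hv).2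
  obtain ⟨U, hU, hmax⟩ := Finset.exists_max_image _ Finset.card hne
  obtain ⟨hUS, h4, r, hr⟩ := Finset.mem_filter.1 hU
  have hUS := Finset.mem_powerset.1 hUS
  have hout : ∀ w ∈ S \ U, 24 + dg G U w ≤ 5 * dg G S w := by
    intro w hw
    obtain ⟨hwS, hwU⟩ := Finset.mem_sdiff.1 hw
    have h1 := hmin w hwS
    have h2 : dg G S w ≠ 4 := fun h => hwU (h4 w hwS h)
    have h3 : dg G U w ≤ dg G S w :=
      Finset.card_le_card (Finset.filter_subset_filter _ hUS)
    by_cases h5 : dg G S w = 5
    · by_contra hlt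
      have hmem : insert w U ∈ S.powerset.filter P := by
        refine Finset.mem_filter.2 ⟨Finset.mem_powerset.2 (Finset.insert_subset hwS hUS),
          fun v hv h => Finset.mem_insert_of_mem (h4 v hv h),
          fun x => if x = w then 0 else r x + 1, fun v hv => ?_⟩
        rcases Finset.mem_insert.1 hv with rfl | hv'
        · right
          refine ⟨h5, le_trans (show 2 ≤ dg G U v by omega) (Finset.card_le_card fun x hx => ?_)⟩
          obtain ⟨hxU, hx⟩ := Finset.mem_filter.1 hx
          have : x ≠ v := fun h => hwU (h ▸ hxU)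
          simp [hxU, hx, this]
        · rcases hr v hv' with h | h
          · exact Or.inl h
          · right
            refine ⟨h.1, le_trans h.2 (Finset.card_le_card fun x hx => ?_)⟩
            obtain ⟨hxU, hx, hlt⟩ := Finset.mem_filter.1 hx
            have h6 : x ≠ w := fun h => hwU (h ▸ hxU)
            have h7 : v ≠ w := fun h => hwU (h ▸ hv')
            simp [hxU, hx, h6, h7, hlt]
      have := hmax _ hmem
      rw [Finset.card_insert_of_notMem hwU] at this
      omega
    · omega
  have hp := prune r (fun H => hno H r) U.card U rfl hUS hr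
  have hs1 := Finset.sum_le_sum hout
  rw [Finset.sum_add_distrib, Finset.sum_const, smul_eq_mul, ← Finset.mul_sum,
    sum_dg_comm (S \ U) U] at hs1
  have hs2 : ∑ v ∈ U, dg G S v = ∑ v ∈ U, dg G U v + ∑ v ∈ U, dg G (S \ U) v := by
    rw [← Finset.sum_add_distrib]
    refine Finset.sum_congr rfl fun v _ => ?_
    rw [← dg_union Finset.disjoint_sdiff, Finset.union_sdiff_of_subset hUS]
  have hs3 : ∑ v ∈ S \ U, dg G S v + ∑ v ∈ U, dg G S v = ∑ v ∈ S, dg G S v :=
    Finset.sum_sdiff hUS
  have hs4 : (S \ U).card + U.card = S.card := Finset.card_sdiff_add_card_eq_card hUS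
  rw [← Finset.mul_sum] at hp
  omega

theorem two_colourings {M : V → V → Fin 5 → Fin 5 → Prop}
    (hsymm : ∀ u v a b, M u v a b → M v u b a)
    (huniq : ∀ u v a b c, M u v a b → M u v a c → b = c)
    (h : ∀ S : Finset V, S.Nonempty → (∀ v ∈ S, 4 ≤ dg G S v) →
      5 * ∑ v ∈ S, dg G S v < 24 * S.card) (S : Finset V) :
    ∃ φ ψ : V → Fin 5, Prop5 G M S φ ∧ Prop5 G M S ψ ∧ ∀ v, φ v ≠ ψ v := by
  have hperm : ∀ u v, ∃ σ : Equiv.Perm (Fin 5), ∀ a b, M u v a b → σ a = b := fun u v =>
    exists_perm_of_matching (M u v) (huniq u v)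
      fun a b c ha hb => huniq v u c a b (hsymm _ _ _ _ ha) (hsymm _ _ _ _ hb)
  choose σ hσ using hperm
  induction S using Finset.strongInduction with
  | H S ih =>
    rcases S.eq_empty_or_nonempty with rfl | hS
    · exact ⟨fun _ => 0, fun _ => 1, by simp [Prop5], by simp [Prop5],
        fun _ => (by decide : (0 : Fin 5) ≠ 1)⟩
    by_cases hlow : ∃ v ∈ S, dg G S v ≤ 3
    · obtain ⟨v, hv, hd⟩ := hlow
      obtain ⟨φ, ψ, hφ, hψ, hne⟩ := ih (S.erase v) (Finset.erase_ssubset hv)
      have hle : dg G (S.erase v) v ≤ 3 :=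
        le_trans (Finset.card_le_card (Finset.filter_subset_filter _ (Finset.erase_subset v S))) hd
      have h2 := two_le_card_avail _ _ ((card_blk_le σ (S.erase v) φ v).trans hle)
        ((card_blk_le σ (S.erase v) ψ v).trans hle)
      obtain ⟨s, hs⟩ := Finset.card_pos.1 (lt_of_lt_of_le (by norm_num) h2)
      obtain ⟨hab, ha, hb⟩ := mem_avail.1 hs
      refine ⟨Function.update φ v s.1, Function.update ψ v s.2, ?_, ?_, update_ne hne v hab⟩
      · have := prop5_insert hsymm hσ (Finset.notMem_erase v S) hφ ha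
        rwa [Finset.insert_erase hv] at this
      · have := prop5_insert hsymm hσ (Finset.notMem_erase v S) hψ hb
        rwa [Finset.insert_erase hv] at this
    · push Not at hlow
      have hmin : ∀ v ∈ S, 4 ≤ dg G S v := fun v hv => hlow v hv
      obtain ⟨H, r, hHS, hHne, hH⟩ := exists_red hmin (h S hS hmin)
      obtain ⟨φ, ψ, hφ, hψ, hne⟩ := ih (S \ H) (Finset.sdiff_ssubset hHS hHne)
      have hsum : ∀ w, dg G (S \ H) w + dg G H w = dg G S w := fun w => by
        rw [← dg_union Finset.sdiff_disjoint, Finset.sdiff_union_of_subset hHS]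
      have := extend hsymm hσ r H.card (S \ H) H φ ψ rfl Finset.sdiff_disjoint hφ hψ hne
        (fun w hw => by
          have e := hsum w
          rcases hH w hw with h' | h'
          · left
            refine ⟨by omega, le_trans (by norm_num) (two_le_card_avail _ _
              ((card_blk_le σ _ φ w).trans (by omega)) ((card_blk_le σ _ ψ w).trans (by omega)))⟩
          · right
            exact ⟨by omega, h'.2.2, fun h3 => by omega⟩)
      rwa [Finset.sdiff_union_of_subset hHS] at this

end Pool.Agent.Lib.MP_d98608_co
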